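import Pool.Agent.W868.Amalg

/-!
# `ℵ₁`-amalgamation is not absolute

The definitions are in `Pool.Agent.W868.Defs`.
-/

set_option autoImplicit false

namespace Pool.Agent.Results.MP_8322c3_lc.NotAbsolute

open Pool.Agent.W868

/-- There are countable transitive models `V ⊆ W` of ZFC with the same ordinals and the same
cardinal `ℵ₁`, and a sentence `φ ∈ V` of the infinitary logic (in the sense of `V`), such that
`ℵ₁` is in the amalgamation spectrum of `φ` in exactly one of the models `V` and `W`. -/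
theorem result : ∃ V W : Set ZFSet.{0}, V.Countable ∧ W.Countable ∧ IsZFC V ∧ IsZFC W ∧
    V ⊆ W ∧ (∀ α : ZFSet.{0}, α.IsOrdinal → (α ∈ V ↔ α ∈ W)) ∧
    (∃ κ, IsAleph1 V κ ∧ IsAleph1 W κ) ∧
    ∃ φ ∈ V, IsSentence V φ ∧ ¬ (Aleph1InAPSpec V φ ↔ Aleph1InAPSpec W φ) :=
  main

end Pool.Agent.Results.MP_8322c3_lc.NotAbsolute
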